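import Pool.Agent.H27.G.R_seed8.TH612.GS.Stm
import Pool.Agent.H27.G.R_seed8.TH612.MD.L1
import Pool.Agent.H27.G.R_seed8.TH612.CF.Xf

/-! The factor of the functional equation as a convolution operator (CHI), for helper612. -/

set_option autoImplicit false

namespace Pool.Agent.TH406.GS

open Complex Filter Topology MeasureTheory Set
open scoped ComplexConjugate

noncomputable section

/-- abstract properties of the factor -/
structure Osc (X L : ℝ → ℂ) : Prop where
  cont : Continuous X
  norm : ∀ u, ‖X u‖ = 1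
  hd : ∀ u, 1 ≤ u → HasDerivAt X (X u * L u * I) u
  near : ∀ u, 16 ≤ u → ‖L u - (Real.log (u / (2 * Real.pi)) : ℂ)‖ ≤ 16 / u

variable {X L : ℝ → ℂ}

theorem norm_conj_mul (h : Osc X L) (a b : ℝ) : ‖conj (X a) * X b‖ = 1 := by
  rw [norm_mul, Complex.norm_conj, h.norm, h.norm, one_mul]

/-- the oscillating integral, away from zero -/
theorem core (h : Osc X L) {T t s : ℝ} (hT : 16 ≤ T) (ht : 0 ≤ t) (hts : t < s) (hs : s ≤ T) :
    ‖∫ y in (16:ℝ)..T, conj (X (t + y)) * X (s + y)‖ ≤ (64 * Real.log T + 6) * T / (s - t) := by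
  set F : ℝ → ℂ := fun y => conj (X (t + y)) * X (s + y) with hF
  have hst : 0 < s - t := by linarith
  have hFc : Continuous F := by
    have := h.cont
    fun_prop
  have hFn : ∀ y, ‖F y‖ = 1 := fun y => norm_conj_mul h _ _
  set lam : ℝ → ℝ := fun y => Real.log (s + y) - Real.log (t + y) with hlam
  set lam' : ℝ → ℝ := fun y => 1 / (s + y) - 1 / (t + y) with hlam'
  have hld : ∀ y, 16 ≤ y → HasDerivAt lam (lam' y) y := by
    intro y hy
    have h1 : HasDerivAt (fun y : ℝ => s + y) 1 y := (hasDerivAt_id y).const_add s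
    have h2 : HasDerivAt (fun y : ℝ => t + y) 1 y := (hasDerivAt_id y).const_add t
    exact (h1.log (by linarith)).sub (h2.log (by linarith))
  have hlge : ∀ y, 16 ≤ y → y ≤ T → (s - t) / (2 * T) ≤ lam y := by
    intro y hy hyT
    have h1 : 0 < t + y := by linarith
    have h2 : 0 < s + y := by linarith
    have h3 := Real.one_sub_inv_le_log_of_pos (x := (s + y) / (t + y)) (by positivity)
    rw [Real.log_div h2.ne' h1.ne', inv_div] at h3
    refine le_trans ?_ h3
    rw [div_le_iff₀ (by linarith)]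
    have h4 : (1 - (t + y) / (s + y)) = (s - t) / (s + y) := by
      field_simp
      ring
    rw [h4, div_mul_eq_mul_div, le_div_iff₀ h2]
    nlinarith
  set Λ : ℝ := (s - t) / (2 * T) with hΛ
  have hΛ0 : 0 < Λ := by
    rw [hΛ]
    exact div_pos hst (by linarith)
  have hlpos : ∀ y, 16 ≤ y → y ≤ T → 0 < lam y := fun y h1 h2 => lt_of_lt_of_le hΛ0 (hlge y h1 h2)
  set e : ℝ → ℂ := fun u => L u - (Real.log (u / (2 * Real.pi)) : ℂ) with he
  set ε : ℝ → ℂ := fun y => e (s + y) - conj (e (t + y)) with hε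
  have hεn : ∀ y, 16 ≤ y → ‖ε y‖ ≤ 32 / y := by
    intro y hy
    have hy0 : 0 < y := by linarith
    have h1 := h.near (s + y) (by linarith)
    have h2 := h.near (t + y) (by linarith)
    have h3 : 16 / (s + y) ≤ 16 / y := div_le_div_of_nonneg_left (by norm_num) hy0 (by linarith)
    have h4 : 16 / (t + y) ≤ 16 / y := div_le_div_of_nonneg_left (by norm_num) hy0 (by linarith)
    calc ‖ε y‖ ≤ ‖e (s + y)‖ + ‖conj (e (t + y))‖ := norm_sub_le _ _
      _ ≤ 16 / y + 16 / y := by
          rw [Complex.norm_conj]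
          exact add_le_add (h1.trans h3) (h2.trans h4)
      _ = 32 / y := by ring
  have hFd : ∀ y, 16 ≤ y → HasDerivAt F (I * F y * (lam y + ε y)) y := by
    intro y hy
    have d1 : HasDerivAt (fun y => X (s + y)) (X (s + y) * L (s + y) * I) y :=
      (h.hd (s + y) (by linarith)).comp_const_add s y
    have d2 : HasDerivAt (fun y => X (t + y)) (X (t + y) * L (t + y) * I) y :=
      (h.hd (t + y) (by linarith)).comp_const_add t y
    have d3 := d2.star
    have d4 := d3.mul d1
    refine d4.congr_deriv ?_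
    have e1 : (lam y : ℂ) = (Real.log ((s + y) / (2 * Real.pi)) : ℂ) - (Real.log ((t + y) / (2 * Real.pi)) : ℂ) := by
      rw [hlam]
      simp only
      rw [Real.log_div (by linarith) (by positivity), Real.log_div (by linarith) (by positivity)]
      push_cast
      ring
    have e2 : (lam y : ℂ) + ε y = L (s + y) - conj (L (t + y)) := by
      rw [e1, hε, he]
      simp only [map_sub, conj_ofReal]
      ring
    rw [e2, hF]
    simp only [Complex.star_def, map_mul, conj_I]
    ring
  set G : ℝ → ℂ := fun y => -I * F y / lam y with hG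
  have hGd : ∀ y, 16 ≤ y → y ≤ T → HasDerivAt G (F y + F y * ε y / lam y + I * F y * lam' y / (lam y) ^ 2) y := by
    intro y h1 h2
    have hp := hlpos y h1 h2
    have hpc : (lam y : ℂ) ≠ 0 := by exact_mod_cast hp.ne'
    have d1 := (hFd y h1).const_mul (-I)
    have d2 := (hld y h1).ofReal_comp
    have d3 := d1.div d2 hpc
    refine d3.congr_deriv ?_
    field_simp
    linear_combination (-(F y * lam y * (lam y + ε y))) * I_sq
  have hGn : ∀ y, 16 ≤ y → y ≤ T → ‖G y‖ ≤ 1 / Λ := by
    intro y h1 h2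
    have hp := hlpos y h1 h2
    rw [hG]
    simp only
    rw [norm_div, norm_mul, norm_neg, norm_I, hFn, one_mul, Complex.norm_real, Real.norm_of_nonneg hp.le]
    exact one_div_le_one_div_of_le hΛ0 (hlge y h1 h2)
  -- comparison
  have key := image_norm_le_of_norm_deriv_right_le_deriv_boundary' (a := 16) (b := T)
    (f := fun y => (∫ x in (16:ℝ)..y, F x) - G y + G 16)
    (f' := fun y => F y - (F y + F y * ε y / lam y + I * F y * lam' y / (lam y) ^ 2))
    (B := fun y => 32 * Real.log y / Λ + 1 / lam y)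
    (B' := fun y => 32 * (1 / y) / Λ + -lam' y / (lam y) ^ 2)
    (fun y hy => by
      have d1 : HasDerivAt (fun u => ∫ x in (16:ℝ)..u, F x) (F y) y :=
        intervalIntegral.integral_hasDerivAt_right (hFc.intervalIntegrable _ _)
          (hFc.stronglyMeasurableAtFilter _ _) hFc.continuousAt
      exact ((d1.sub (hGd y hy.1 hy.2)).add_const _).continuousAt.continuousWithinAt)
    (fun y hy => by
      have d1 : HasDerivAt (fun u => ∫ x in (16:ℝ)..u, F x) (F y) y :=
        intervalIntegral.integral_hasDerivAt_right (hFc.intervalIntegrable _ _)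
          (hFc.stronglyMeasurableAtFilter _ _) hFc.continuousAt
      exact ((d1.sub (hGd y hy.1 hy.2.le)).add_const _).hasDerivWithinAt)
    (by
      simp only [intervalIntegral.integral_same, zero_sub, neg_add_cancel, norm_zero]
      have h1 := hlpos 16 le_rfl hT
      have h2 : 0 ≤ Real.log 16 := Real.log_nonneg (by norm_num)
      positivity)
    (fun y hy => by
      have hp := hlpos y hy.1 hy.2
      have d1 := (((Real.hasDerivAt_log (show y ≠ 0 by linarith [hy.1])).const_mul 32).div_const Λ)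
      have d2 := (hld y hy.1).inv hp.ne'
      have d3 : HasDerivAt (fun y => 32 * Real.log y / Λ + 1 / lam y)
          (32 * y⁻¹ / Λ + -lam' y / (lam y) ^ 2) y := by
        simp_rw [one_div]
        exact d1.add d2
      exact d3.continuousAt.continuousWithinAt)
    (fun y hy => by
      have hp := hlpos y hy.1 hy.2.le
      have d1 := (((Real.hasDerivAt_log (show y ≠ 0 by linarith [hy.1])).const_mul 32).div_const Λ)
      have d2 := (hld y hy.1).inv hp.ne'
      have d3 : HasDerivAt (fun y => 32 * Real.log y / Λ + 1 / lam y)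
          (32 * (1 / y) / Λ + -lam' y / (lam y) ^ 2) y := by
        simp_rw [one_div]
        exact d1.add d2
      exact d3.hasDerivWithinAt)
    (fun y hy => by
      have hp := hlpos y hy.1 hy.2.le
      have hy0 : 0 < y := by linarith [hy.1]
      have e1 : F y - (F y + F y * ε y / lam y + I * F y * lam' y / (lam y) ^ 2) =
          -(F y * ε y / lam y) - I * F y * lam' y / (lam y) ^ 2 := by ring
      rw [e1]
      refine (norm_sub_le _ _).trans ?_
      rw [norm_neg, norm_div, norm_mul, hFn, one_mul, Complex.norm_real, Real.norm_of_nonneg hp.le,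
        norm_div, norm_mul, norm_mul, norm_I, hFn, one_mul, one_mul, Complex.norm_real, norm_pow,
        Complex.norm_real, Real.norm_of_nonneg hp.le, Real.norm_eq_abs]
      have h3 : lam' y ≤ 0 := by
        rw [hlam']
        simp only
        rw [sub_nonpos]
        exact one_div_le_one_div_of_le (by linarith) (by linarith)
      rw [abs_of_nonpos h3]
      refine add_le_add ?_ le_rfl
      calc ‖ε y‖ / lam y ≤ (32 / y) / lam y := div_le_div_of_nonneg_right (hεn y hy.1) hp.le
        _ ≤ (32 / y) / Λ := div_le_div_of_nonneg_left (by positivity) hΛ0 (hlge y hy.1 hy.2.le)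
        _ = _ := by ring)
  have hk := key (x := T) (right_mem_Icc.2 hT)
  have hk2 : 1 / lam T ≤ 1 / Λ := one_div_le_one_div_of_le hΛ0 (hlge T hT le_rfl)
  have e3 : ∫ x in (16:ℝ)..T, F x = ((∫ x in (16:ℝ)..T, F x) - G T + G 16) + G T - G 16 := by ring
  rw [e3]
  have h5 := hGn T hT le_rfl
  have h6 := hGn 16 le_rfl hT
  calc _ ≤ ‖(∫ x in (16:ℝ)..T, F x) - G T + G 16‖ + ‖G T‖ + ‖G 16‖ :=
        (norm_sub_le _ _).trans (add_le_add (norm_add_le _ _) le_rfl)
    _ ≤ (32 * Real.log T / Λ + 1 / Λ) + 1 / Λ + 1 / Λ := by linarith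
    _ = _ := by
      rw [hΛ]
      field_simp
      ring

/-- the kernel -/
def KK (X : ℝ → ℂ) (T t s : ℝ) : ℂ := ∫ y in (0:ℝ)..T, conj (X (t + y)) * X (s + y)

theorem KK_conj (X : ℝ → ℂ) (T t s : ℝ) : ‖KK X T t s‖ = ‖KK X T s t‖ := by
  have : KK X T t s = conj (KK X T s t) := by
    unfold KK
    rw [intervalIntegral, intervalIntegral, map_sub, ← integral_conj, ← integral_conj]
    congr 1
    · refine integral_congr_ae (Eventually.of_forall fun y => ?_)
      simp [mul_comm]
    · refine integral_congr_ae (Eventually.of_forall fun y => ?_)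
      simp [mul_comm]
  rw [this, Complex.norm_conj]

theorem log_ge_one {T : ℝ} (hT : 16 ≤ T) : 1 ≤ Real.log T := by
  rw [Real.le_log_iff_exp_le (by linarith)]
  have := Real.exp_one_lt_d9
  linarith

theorem KK_triv (h : Osc X L) {T t s : ℝ} (hT : 0 ≤ T) : ‖KK X T t s‖ ≤ T := by
  unfold KK
  have := intervalIntegral.norm_integral_le_of_norm_le_const (a := 0) (b := T) (C := 1)
    (f := fun y => conj (X (t + y)) * X (s + y)) (fun y _ => (norm_conj_mul h _ _).le)
  rwa [one_mul, sub_zero, abs_of_nonneg hT] at this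

theorem KK_lt (h : Osc X L) {T t s : ℝ} (hT : 16 ≤ T) (ht : 0 ≤ t) (hts : t < s) (hs : s ≤ T) :
    ‖KK X T t s‖ ≤ 172 * T * Real.log T / (1 + (s - t)) := by
  have hl := log_ge_one hT
  have hT0 : 0 < T := by linarith
  have hst : 0 < s - t := by linarith
  rcases le_or_gt (s - t) 1 with h1 | h1
  · refine (KK_triv h hT0.le).trans ?_
    rw [le_div_iff₀ (by linarith)]
    nlinarith
  · have hFc : Continuous fun y => conj (X (t + y)) * X (s + y) := by
      have := h.cont
      fun_prop
    have e1 : KK X T t s = (∫ y in (0:ℝ)..16, conj (X (t + y)) * X (s + y)) +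
        ∫ y in (16:ℝ)..T, conj (X (t + y)) * X (s + y) := by
      unfold KK
      rw [intervalIntegral.integral_add_adjacent_intervals (hFc.intervalIntegrable _ _)
        (hFc.intervalIntegrable _ _)]
    have h2 := KK_triv h (T := 16) (t := t) (s := s) (by norm_num)
    have h3 := core h hT ht hts hs
    unfold KK at h2
    rw [e1]
    refine (norm_add_le _ _).trans ((add_le_add h2 h3).trans ?_)
    rw [le_div_iff₀ (by linarith), add_mul, div_mul_eq_mul_div]
    have h4 : (64 * Real.log T + 6) * T * (1 + (s - t)) / (s - t) ≤ (64 * Real.log T + 6) * T * 2 := by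
      rw [div_le_iff₀ hst, mul_assoc ((64 * Real.log T + 6) * T)]
      refine mul_le_mul_of_nonneg_left (by linarith) (by positivity)
    have h5 : 16 * (1 + (s - t)) ≤ 32 * T := by linarith
    have h6 : T ≤ T * Real.log T := by nlinarith
    nlinarith

theorem KK_le (h : Osc X L) {T t s : ℝ} (hT : 16 ≤ T) (ht : 0 ≤ t) (htT : t ≤ T) (hs : 0 ≤ s)
    (hsT : s ≤ T) : ‖KK X T t s‖ ≤ 172 * T * Real.log T / (1 + |t - s|) := by
  rcases lt_trichotomy t s with h1 | h1 | h1
  · rw [abs_sub_comm, abs_of_pos (by linarith : 0 < s - t)]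
    exact KK_lt h hT ht h1 hsT
  · have hl := log_ge_one hT
    refine (KK_triv h (by linarith)).trans ?_
    rw [h1, sub_self, abs_zero, add_zero, div_one]
    nlinarith
  · rw [KK_conj, abs_of_pos (by linarith : 0 < t - s)]
    exact KK_lt h hT hs h1 htT

theorem inner_int {T S t : ℝ} (hT : 16 ≤ T) (hS : S ≤ T) (ht : 0 ≤ t) (htS : t ≤ S) :
    ∫ s in (0:ℝ)..S, (1 + |t - s|)⁻¹ ≤ 4 * Real.log T := by
  have hc : Continuous fun s : ℝ => (1 + |t - s|)⁻¹ := by
    refine Continuous.inv₀ (by fun_prop) fun s => ?_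
    have := abs_nonneg (t - s)
    positivity
  rw [← intervalIntegral.integral_add_adjacent_intervals (b := t) (hc.intervalIntegrable _ _)
    (hc.intervalIntegrable _ _)]
  have e1 : ∫ s in (0:ℝ)..t, (1 + |t - s|)⁻¹ = Real.log (1 + t) := by
    have h1 : ∫ s in (0:ℝ)..t, (1 + |t - s|)⁻¹ = ∫ s in (0:ℝ)..t, ((1 + t) - s)⁻¹ := by
      refine intervalIntegral.integral_congr fun s hs => ?_
      rw [uIcc_of_le ht] at hs
      rw [abs_of_nonneg (by linarith [hs.2])]
      ring_nf
    rw [h1, intervalIntegral.integral_comp_sub_left (fun x => x⁻¹), integral_inv_of_pos (by linarith) (by linarith)]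
    congr 1
    field_simp
    ring
  have e2 : ∫ s in t..S, (1 + |t - s|)⁻¹ = Real.log (1 + (S - t)) := by
    have h1 : ∫ s in t..S, (1 + |t - s|)⁻¹ = ∫ s in t..S, (s - (t - 1))⁻¹ := by
      refine intervalIntegral.integral_congr fun s hs => ?_
      rw [uIcc_of_le htS] at hs
      rw [abs_sub_comm, abs_of_nonneg (by linarith [hs.1])]
      ring_nf
    rw [h1, intervalIntegral.integral_comp_sub_right (fun x => x⁻¹), integral_inv_of_pos (by linarith) (by linarith)]
    congr 1
    field_simp
    ring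
  rw [e1, e2]
  have h3 : ∀ x : ℝ, 0 ≤ x → x ≤ T → Real.log (1 + x) ≤ 2 * Real.log T := by
    intro x h0 hx
    have h4 : 2 * Real.log T = Real.log (T ^ 2) := by
      rw [Real.log_pow]
      push_cast
      ring
    rw [h4]
    exact Real.log_le_log (by linarith) (by nlinarith)
  have h5 := h3 t ht (by linarith)
  have h6 := h3 (S - t) (by linarith) (by linarith)
  linarith

theorem main (h : Osc X L) {T S : ℝ} {R : ℝ → ℂ} (hT : 16 ≤ T) (hS0 : 0 ≤ S) (hS : S ≤ T)
    (hR : Continuous R) (hR1 : ∀ t, ‖R t‖ ≤ 1) :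
    ∫ y in (0:ℝ)..T, ‖∫ t in (0:ℝ)..S, conj (X (t + y)) * R t‖ ^ 2 ≤
      688 * T ^ 2 * Real.log T ^ 2 := by
  have hT0 : 0 ≤ T := by linarith
  have hl := log_ge_one hT
  set μ : Measure ℝ := volume.restrict (Ioc 0 S) with hμ
  set ν : Measure ℝ := volume.restrict (Ioc 0 T) with hν
  set Φ : ℝ → ℝ → ℂ := fun t y => conj (X (t + y)) * R t with hΦ
  have hX := h.cont
  have hΦc : Continuous (Function.uncurry Φ) := by
    rw [hΦ]
    unfold Function.uncurry
    fun_prop
  have hΦn : ∀ t y, ‖Φ t y‖ ≤ 1 := by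
    intro t y
    rw [hΦ]
    simp only
    rw [norm_mul, Complex.norm_conj, h.norm, one_mul]
    exact hR1 t
  -- the square
  have e0 : ((∫ y in (0:ℝ)..T, ‖∫ t in (0:ℝ)..S, conj (X (t + y)) * R t‖ ^ 2 : ℝ) : ℂ) =
      ∫ y, ∫ p : ℝ × ℝ, Φ p.1 y * conj (Φ p.2 y) ∂(μ.prod μ) ∂ν := by
    rw [intervalIntegral.integral_of_le hT0, ← integral_complex_ofReal]
    refine integral_congr_ae (Eventually.of_forall fun y => ?_)
    simp only
    rw [integral_prod_mul (fun t => Φ t y) (fun s => conj (Φ s y)), integral_conj,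
      intervalIntegral.integral_of_le hS0, Complex.mul_conj, Complex.normSq_eq_norm_sq]
  have hint : Integrable (Function.uncurry fun (y : ℝ) (p : ℝ × ℝ) => Φ p.1 y * conj (Φ p.2 y))
      (ν.prod (μ.prod μ)) := by
    have : IsFiniteMeasure μ := ⟨by rw [hμ]; simp⟩
    have : IsFiniteMeasure ν := ⟨by rw [hν]; simp⟩
    refine Integrable.of_bound (C := 1) ?_ (Eventually.of_forall fun q => ?_)
    · apply Continuous.aestronglyMeasurable
      rw [hΦ]
      unfold Function.uncurry
      fun_prop
    · simp only [Function.uncurry]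
      rw [norm_mul, Complex.norm_conj]
      exact mul_le_one₀ (hΦn _ _) (norm_nonneg _) (hΦn _ _)
  rw [integral_integral_swap hint] at e0
  have e1 : ∀ p : ℝ × ℝ, ∫ y, Φ p.1 y * conj (Φ p.2 y) ∂ν = R p.1 * conj (R p.2) * KK X T p.1 p.2 := by
    intro p
    unfold KK
    rw [intervalIntegral.integral_of_le hT0, ← integral_const_mul]
    refine integral_congr_ae (Eventually.of_forall fun y => ?_)
    rw [hΦ]
    simp only [map_mul, Complex.conj_conj]
    ring
  simp_rw [e1] at e0
  have hbc : Continuous fun p : ℝ × ℝ => 172 * T * Real.log T / (1 + |p.1 - p.2|) := by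
    refine Continuous.div continuous_const (by fun_prop) fun p => ?_
    have := abs_nonneg (p.1 - p.2)
    positivity
  have : IsFiniteMeasure μ := ⟨by rw [hμ]; simp⟩
  have hbi : Integrable (fun p : ℝ × ℝ => 172 * T * Real.log T / (1 + |p.1 - p.2|)) (μ.prod μ) := by
    refine Integrable.of_bound (C := 172 * T * Real.log T) hbc.aestronglyMeasurable
      (Eventually.of_forall fun p => ?_)
    have h1 := abs_nonneg (p.1 - p.2)
    rw [Real.norm_of_nonneg (by positivity)]
    exact div_le_self (by positivity) (by linarith)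
  have h2 : ‖∫ p : ℝ × ℝ, R p.1 * conj (R p.2) * KK X T p.1 p.2 ∂(μ.prod μ)‖ ≤
      ∫ p : ℝ × ℝ, 172 * T * Real.log T / (1 + |p.1 - p.2|) ∂(μ.prod μ) := by
    refine norm_integral_le_of_norm_le hbi ?_
    rw [hμ, Measure.prod_restrict]
    filter_upwards [ae_restrict_mem (measurableSet_Ioc.prod measurableSet_Ioc)] with p hp
    obtain ⟨h3, h4⟩ := hp
    rw [norm_mul, norm_mul, Complex.norm_conj]
    calc ‖R p.1‖ * ‖R p.2‖ * ‖KK X T p.1 p.2‖ ≤ 1 * 1 * ‖KK X T p.1 p.2‖ := by
          refine mul_le_mul_of_nonneg_right (mul_le_mul (hR1 _) (hR1 _) (norm_nonneg _) zero_le_one) (norm_nonneg _)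
      _ = ‖KK X T p.1 p.2‖ := by ring
      _ ≤ _ := KK_le h hT h3.1.le (h3.2.trans hS) h4.1.le (h4.2.trans hS)
  rw [← e0, Complex.norm_real] at h2
  refine (Real.le_norm_self _).trans (h2.trans ?_)
  rw [integral_prod _ hbi]
  have h5 : ∀ t ∈ Ioc 0 S, ∫ s, 172 * T * Real.log T / (1 + |t - s|) ∂μ ≤ 172 * T * Real.log T * (4 * Real.log T) := by
    intro t ht
    have h6 := inner_int hT hS ht.1.le ht.2
    rw [intervalIntegral.integral_of_le hS0] at h6
    simp_rw [div_eq_mul_inv]
    rw [integral_const_mul]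
    exact mul_le_mul_of_nonneg_left h6 (by positivity)
  calc ∫ t, ∫ s, 172 * T * Real.log T / (1 + |t - s|) ∂μ ∂μ ≤ ∫ t, 172 * T * Real.log T * (4 * Real.log T) ∂μ := by
        refine integral_mono_ae hbi.integral_prod_left (integrable_const _) ?_
        rw [hμ]
        filter_upwards [ae_restrict_mem measurableSet_Ioc] with t ht
        exact h5 t ht
    _ = S * (172 * T * Real.log T * (4 * Real.log T)) := by
        rw [integral_const, smul_eq_mul, hμ]
        simp [Measure.real, hS0]
    _ ≤ T * (172 * T * Real.log T * (4 * Real.log T)) := mul_le_mul_of_nonneg_right hS (by positivity)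
    _ = _ := by ring

open Pool.Agent.TH612.CF Pool.Agent.TH612.MD
open Pool.Agent.W182.KO (XX XX_conj)

theorem chi_eq (u : ℝ) : chi (1 / 2 + I * u) = conj (XX (1 / 2 + I * u)) := by
  have h1 := chi_XX (w := 1 / 2 - I * u) (by simp) (by simp; norm_num)
  have e1 : (1 : ℂ) - (1 / 2 - I * u) = 1 / 2 + I * u := by ring
  have e2 : (1 / 2 - I * (u : ℂ)) = conj (1 / 2 + I * u) := by
    simp only [map_add, map_mul, map_div₀, map_one, map_ofNat, conj_ofReal, conj_I]
    ring
  rw [e1, e2, XX_conj] at h1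
  exact h1

theorem osc : Osc (fun u : ℝ => XX (1 / 2 + I * u)) (fun u : ℝ => LX (1 / 2 + I * u)) where
  cont := by
    have h1 : (fun u : ℝ => XX (1 / 2 + I * u)) = fun u : ℝ => conj (chi (1 / 2 + I * u)) := by
      funext u
      rw [chi_eq, Complex.conj_conj]
    rw [h1]
    refine Complex.continuous_conj.comp (continuous_iff_continuousAt.2 fun u => ?_)
    have h2 : ContinuousAt chi (1 / 2 + I * u) := (chi_diff (w := I * u) (by simp)).continuousAt
    exact ContinuousAt.comp (f := fun u : ℝ => 1 / 2 + I * (u : ℂ)) h2 (by fun_prop)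
  norm := by
    intro u
    have h1 := H345.norm_XX_half u
    rw [mul_comm I]
    exact h1
  hd := by
    intro u hu
    have h1 : HasDerivAt (fun v : ℝ => (1 / 2 + I * (v : ℂ))) I u := by
      have h1 : HasDerivAt (fun v : ℝ => (v : ℂ)) 1 u := Complex.ofRealCLM.hasDerivAt
      simpa using (h1.const_mul I).const_add (1 / 2)
    have h2 := XX_hd (s := 1 / 2 + I * u) (by simpa using hu)
    exact HasDerivAt.comp u h2 h1
  near := by
    intro u hu
    have e : (1 / 2 + I * (u : ℂ)) - (1 / 2 + u * I) = 0 := by ring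
    have h1 := LX_near (s := 1 / 2 + I * u) (t0 := u) hu (by rw [e, norm_zero]; linarith)
    rw [e, norm_zero, add_zero, mul_one] at h1
    exact h1

theorem t_CHI : Pool.Agent.TH612.GS.S_CHI := by
  refine ⟨688, 16, by norm_num, by norm_num, fun T S R hT hS0 hS hR hR1 => ?_⟩
  have e : ∀ t y : ℝ, chi (1 / 2 + I * (t + y)) = conj (XX (1 / 2 + I * ((t + y : ℝ) : ℂ))) := by
    intro t y
    rw [← chi_eq]
    push_cast
    rfl
  simp_rw [e]
  exact main osc hT hS0 hS hR hR1

end

end Pool.Agent.TH406.GS
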